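import Pool.Agent.H17.SD.Targets

/-!
# MP_70ba79_ag, THEOREM S, chapter 1, row BBN: bounds for the dimensions
-/

set_option autoImplicit false

namespace Pool.Agent.H54.SFG

open MvPolynomial SC Pool.Agent.H27.LV
open Pool.Agent.H92.SF Pool.Agent.H3.SF Pool.Agent.H17.SD

theorem two_choose (s : ℕ) : 2 * (s + 2).choose 2 = (s + 2) * (s + 1) := by
  induction s with
  | zero => rfl
  | succ n ih =>
    have h : (n + 1 + 2).choose 2 = (n + 2).choose 1 + (n + 2).choose 2 :=
      Nat.choose_succ_succ (n + 2) 1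
    rw [h, Nat.choose_one_right, mul_add, ih]
    ring

theorem pf_BBN (h1 : T_BBD) (h2 : T_DMB) : T_BBN := by
  intro k F _ _ _ _ u θ dd J j0 δ hu hfd hδ hθ hθi hdd hEθ hJ hJ0 hJI
  have hE : ∀ l, eu u dd (u l) = u l := by
    intro l
    unfold eu
    rw [Fin.sum_univ_three]
    simp only [Derivation.add_apply, Derivation.smul_apply, smul_eq_mul, hdd]
    fin_cases l <;> simp
  obtain ⟨-, g2, g3, g4⟩ := h1 k F u θ dd J j0 hu hfd hθ hθi hdd hEθ hJ hJ0 hJI
  obtain ⟨-, f2⟩ := h2 k F u θ (eu u dd) hu hfd hθ hθi hE hEθ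
  have hJu : aeval u J ≠ 0 := by
    intro h
    exact hJ0 ((hu.eq_zero_of_aeval_eq_zero J h))
  constructor
  · intro t
    obtain ⟨hf, hr⟩ := f2 (t + j0)
    have g5 : ∀ a : F, a ∈ BB k u (eu u dd) (t : ℤ) →
        aeval u J * a ∈ Gr (PB k u θ) (eu u dd) ((t + j0 : ℕ) : ℤ) := by
      intro a ha
      have h := g4 t a ha
      rwa [← Nat.cast_add] at h
    let L : BB k u (eu u dd) (t : ℤ) →ₗ[k] Gr (PB k u θ) (eu u dd) ((t + j0 : ℕ) : ℤ) :=
      { toFun := fun a => ⟨aeval u J * a, g5 a a.2⟩
        map_add' := by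
          intro a b
          ext
          simp [mul_add]
        map_smul' := by
          intro c a
          ext
          simp }
    have hL : Function.Injective L := by
      intro a b h
      have h3 : aeval u J * (a : F) = aeval u J * b := congrArg Subtype.val h
      exact Subtype.ext (mul_left_cancel₀ hJu h3)
    have h4 := LinearMap.finrank_le_finrank_of_injective hL
    rw [hr, hδ] at h4
    calc 2 * Module.finrank k (BB k u (eu u dd) t) ≤ 2 * ∑ i ∈ Finset.range δ,
          (if i ≤ t + j0 then (t + j0 - i + 2).choose 2 else 0) := Nat.mul_le_mul_left 2 h4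
      _ = ∑ i ∈ Finset.range δ, 2 * (if i ≤ t + j0 then (t + j0 - i + 2).choose 2 else 0) := by
          rw [Finset.mul_sum]
      _ ≤ ∑ i ∈ Finset.range δ, (t + (j0 + δ + 2)) ^ 2 := by
          refine Finset.sum_le_sum fun i _ => ?_
          split_ifs with hi
          · rw [two_choose, sq]
            exact Nat.mul_le_mul (by omega) (by omega)
          · exact Nat.zero_le _
      _ = δ * (t + (j0 + δ + 2)) ^ 2 := by
          rw [Finset.sum_const, Finset.card_range, smul_eq_mul]
  · intro t ht
    obtain ⟨hf, hr⟩ := f2 t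
    have := g2 (t : ℤ)
    have h4 := Submodule.finrank_mono (g3 (t : ℤ))
    rw [hr, hδ] at h4
    calc δ * (t - (j0 + δ + 2)) ^ 2 = ∑ i ∈ Finset.range δ, (t - (j0 + δ + 2)) ^ 2 := by
          rw [Finset.sum_const, Finset.card_range, smul_eq_mul]
      _ ≤ ∑ i ∈ Finset.range δ, 2 * (if i ≤ t then (t - i + 2).choose 2 else 0) := by
          refine Finset.sum_le_sum fun i hi => ?_
          rw [Finset.mem_range] at hi
          rw [if_pos (by omega), two_choose, sq]
          exact Nat.mul_le_mul (by omega) (by omega)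
      _ = 2 * ∑ i ∈ Finset.range δ, (if i ≤ t then (t - i + 2).choose 2 else 0) := by
          rw [Finset.mul_sum]
      _ ≤ 2 * Module.finrank k (BB k u (eu u dd) t) := Nat.mul_le_mul_left 2 h4

end Pool.Agent.H54.SFG
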